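import Pool.Agent.Lib.MP_b5021c_nt.IfaceE2
import Pool.Agent.Lib.MP_b5021c_nt.B.H83.I1A

/-!
# MP_b5021c_nt, row E2_TPV (helper98): positivity in the disc
-/

namespace Pool.Agent.B5.H98

open Pool.Agent.B5 Pool.Agent.B5.H83

/-- `|y| ≤ |x|`, `|e| = 1`: `Re (x conj (x + e y)) ≥ 0`. -/
theorem re_mul_conj_nonneg (x y e : ℂ) (he : ‖e‖ = 1) (hy : ‖y‖ ≤ ‖x‖) :
    0 ≤ (x * (starRingEnd ℂ) (x + e * y)).re := by
  have h1 : (x * (starRingEnd ℂ) (x + e * y)).re =
      ‖x‖ ^ 2 + (x * (starRingEnd ℂ) (e * y)).re := by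
    rw [map_add, mul_add, Complex.add_re, Complex.mul_conj, Complex.ofReal_re,
      Complex.normSq_eq_norm_sq]
  rw [h1]
  have h2 : |(x * (starRingEnd ℂ) (e * y)).re| ≤ ‖x * (starRingEnd ℂ) (e * y)‖ :=
    Complex.abs_re_le_norm _
  have h3 : ‖x * (starRingEnd ℂ) (e * y)‖ = ‖x‖ * ‖y‖ := by
    rw [norm_mul, RCLike.norm_conj, norm_mul, he, one_mul]
  rw [h3] at h2
  have h4 : ‖x‖ * ‖y‖ ≤ ‖x‖ * ‖x‖ := mul_le_mul_of_nonneg_left hy (norm_nonneg _)
  have h5 := (abs_le.mp h2).1
  nlinarith

theorem e2tpv (h2 : MultiS) (h3 : StSpecS) (h6 : G0S) (h7 : EvRS) : TpvS := by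
  intro O _ _ _ _ P L _ _ _ _ _ phi D S i0 eta h hcc lam hS hlam z hD0
  obtain ⟨g1, g2, g3, g4, g5, g6⟩ := h6 O P L phi D S i0 eta h hcc
  have hst : StableC (spec z D) := (h3 O L D).1 hcc.dd.st z hD0
  set k := co phi i0 with hk
  set lam' := lam.comp (incl (Ker k)) with hlam'
  have hbin : ∀ a ∈ supp D, k a = 0 ∨ k a = 1 := fun a ha => hcc.dd.bin a ha i0
  have hsup : ∀ a ∈ (spec z D).coeff.support, a ∈ supp D := by
    intro a ha h0
    rw [Finsupp.mem_support_iff, spec_coeff, h0, map_zero] at ha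
    exact ha rfl
  have hn : ‖evR z (eta : RO O)‖ = 1 := (h7 O).2.1 z _ eta.isUnit
  intro u s hs
  set X := sl u lam' (spec z (res (Ker k) D)) with hX
  set V := sl u lam' (spec z (cl k S h eta D)) with hV
  set e := evR z (eta : RO O) with he
  have he0 : e ≠ 0 := by
    intro h0
    rw [h0, norm_zero] at hn
    exact zero_ne_one hn
  set Y : Polynomial ℂ := Polynomial.C e⁻¹ * (V - X) with hY
  have hYs : ∀ s : ℂ, Y.eval s = e⁻¹ * (V.eval s - X.eval s) := fun s => by
    rw [hY, Polynomial.eval_mul, Polynomial.eval_C, Polynomial.eval_sub]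
  have hVs : ∀ s : ℂ, X.eval s + e * Y.eval s = V.eval s := fun s => by
    rw [hYs, ← mul_assoc, mul_inv_cancel₀ he0]; ring
  have hne : ∀ s y : ℂ, ‖s‖ < 1 → ‖y‖ < 1 → X.eval s + y * Y.eval s ≠ 0 := by
    intro s y hs hy
    have := h2 L (spec z D) hst (Fin 2) ![lam, k] (by
        intro i a ha
        have ha' := hsup a ha
        fin_cases i
        · rcases eq_or_ne a 0 with rfl | h0
          · simp
          · rcases eq_or_ne a S with rfl | h1
            · simpa using hS.ge
            · simpa using (hlam a ha' h0 h1).le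
        · rcases hbin a ha' with h | h <;> simp [h])
      (by
        intro a ha h0
        have ha' := hsup a ha
        rw [Fin.sum_univ_two]
        have hk0 : 0 ≤ k a := by rcases hbin a ha' with h | h <;> simp [h]
        rcases eq_or_ne a S with rfl | h1
        · simp [hS, h]
        · have := hlam a ha' h0 h1
          simp only [Matrix.cons_val_zero, Matrix.cons_val_one]
          omega)
      (u.compAddMonoidHom (prj k S h)) ![s, y] (by
        intro i
        fin_cases i
        · simpa using hs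
        · simpa using hy)
    rw [two_slice k S h eta lam hS z u D hbin s y] at this
    rw [hYs]
    exact this
  have hle : ‖Y.eval s‖ ≤ ‖X.eval s‖ := by
    by_contra hcon
    push Not at hcon
    have hY0 : Y.eval s ≠ 0 := by
      intro h0
      rw [h0, norm_zero] at hcon
      exact absurd hcon (not_lt.mpr (norm_nonneg _))
    apply hne s (-(X.eval s) / Y.eval s) hs
    · rw [norm_div, norm_neg, div_lt_one (norm_pos_iff.mpr hY0)]
      exact hcon
    · rw [div_mul_cancel₀ _ hY0, add_neg_cancel]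
  rw [← hVs s]
  exact re_mul_conj_nonneg _ _ _ hn hle

end Pool.Agent.B5.H98
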