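import Pool.Agent.Lib.MP_b5021c_nt.IfaceE3

/-!
# MP_b5021c_nt, row E3_HP (helper98): positive real part on the circle, bounded below in the disc
-/

namespace Pool.Agent.B5.H98

open Complex Metric Set Polynomial Filter Topology

/-- Real part of a quotient. -/
theorem re_div_eq (a b : ℂ) (hb : b ≠ 0) :
    (a / b).re = (a * (starRingEnd ℂ) b).re / ‖b‖ ^ 2 := by
  have h1 : ((‖b‖ ^ 2 : ℝ) : ℂ) ≠ 0 := by
    have : ‖b‖ ≠ 0 := norm_ne_zero_iff.mpr hb
    exact_mod_cast pow_ne_zero 2 this
  have h2 : a / b = (a * (starRingEnd ℂ) b) / ((‖b‖ ^ 2 : ℝ) : ℂ) := by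
    rw [div_eq_div_iff hb h1]
    have h3 : (starRingEnd ℂ) b * b = ((‖b‖ ^ 2 : ℝ) : ℂ) := by
      rw [mul_comm, Complex.mul_conj, Complex.normSq_eq_norm_sq]
    rw [← h3]
    ring
  rw [h2, Complex.div_ofReal_re]

/-- The auxiliary function. -/
noncomputable def aux (v W : ℂ[X]) (m : ℕ) (s : ℂ) : ℂ :=
  Complex.exp (-((m : ℂ) * (W.eval s / v.eval s))) * v.eval s

theorem norm_aux (v W : ℂ[X]) (m : ℕ) (s : ℂ) :
    ‖aux v W m s‖ = Real.exp (-((m : ℝ) * (W.eval s / v.eval s).re)) * ‖v.eval s‖ := by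
  unfold aux
  rw [norm_mul, Complex.norm_exp]
  congr 2
  simp

theorem e3hp : Hp3S := by
  intro v W C hv hin hbd
  set K0 : ℝ := max C 0 with hK0
  have hK00 : 0 ≤ K0 := le_max_right _ _
  -- bound on the closed ball
  have hle : ∀ (m : ℕ) (s : ℂ), ‖s‖ ≤ 1 → ‖aux v W m s‖ ≤ Real.exp (m * K0) * ‖v.eval s‖ := by
    intro m s hs
    rw [norm_aux]
    by_cases h0 : v.eval s = 0
    · simp [h0]
    · refine mul_le_mul_of_nonneg_right ?_ (norm_nonneg _)
      refine Real.exp_le_exp.mpr ?_
      have hre : -K0 ≤ (W.eval s / v.eval s).re := by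
        rw [re_div_eq _ _ h0]
        have hp : 0 < ‖v.eval s‖ ^ 2 := pow_pos (norm_pos_iff.mpr h0) 2
        rw [le_div_iff₀ hp]
        rcases lt_or_eq_of_le hs with h1 | h1
        · refine le_trans ?_ (hin s h1)
          have : C * ‖v.eval s‖ ^ 2 ≤ K0 * ‖v.eval s‖ ^ 2 :=
            mul_le_mul_of_nonneg_right (le_max_left _ _) hp.le
          linarith
        · refine le_trans ?_ (hbd s h1)
          have : 0 ≤ K0 * ‖v.eval s‖ ^ 2 := mul_nonneg hK00 hp.le
          linarith
      have hm : (0 : ℝ) ≤ m := Nat.cast_nonneg m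
      nlinarith [mul_le_mul_of_nonneg_left hre hm]
  have hcirc : ∀ (m : ℕ) (s : ℂ), ‖s‖ = 1 → ‖aux v W m s‖ ≤ ‖v.eval s‖ := by
    intro m s hs
    rw [norm_aux]
    by_cases h0 : v.eval s = 0
    · simp [h0]
    · have hre : 0 ≤ (W.eval s / v.eval s).re := by
        rw [re_div_eq _ _ h0]
        exact div_nonneg (hbd s hs) (by positivity)
      have hm : (0 : ℝ) ≤ m := Nat.cast_nonneg m
      have : Real.exp (-((m : ℝ) * (W.eval s / v.eval s).re)) ≤ 1 := by
        rw [Real.exp_le_one_iff]
        have := mul_nonneg hm hre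
        linarith
      calc Real.exp (-((m : ℝ) * (W.eval s / v.eval s).re)) * ‖v.eval s‖
          ≤ 1 * ‖v.eval s‖ := mul_le_mul_of_nonneg_right this (norm_nonneg _)
        _ = ‖v.eval s‖ := one_mul _
  -- the function is continuous on the closed ball and holomorphic inside
  have hd : ∀ m : ℕ, DiffContOnCl ℂ (aux v W m) (ball 0 1) := by
    intro m
    refine ⟨?_, ?_⟩
    · intro s hs
      have hs1 : ‖s‖ < 1 := by simpa using hs
      have h0 : v.eval s ≠ 0 := hv s hs1
      refine DifferentiableAt.differentiableWithinAt ?_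
      unfold aux
      refine DifferentiableAt.mul ?_ v.differentiable.differentiableAt
      refine DifferentiableAt.cexp ?_
      refine DifferentiableAt.neg ?_
      refine DifferentiableAt.const_mul ?_ _
      exact W.differentiable.differentiableAt.div v.differentiable.differentiableAt h0
    · rw [closure_ball _ one_ne_zero]
      intro s hs
      have hs1 : ‖s‖ ≤ 1 := by simpa using hs
      by_cases h0 : v.eval s = 0
      · have hz : aux v W m s = 0 := by simp [aux, h0]
        unfold ContinuousWithinAt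
        rw [hz]
        have hlim : Tendsto (fun t : ℂ => Real.exp (m * K0) * ‖v.eval t‖)
            (𝓝[closedBall 0 1] s) (𝓝 0) := by
          have h1 : Tendsto (fun t : ℂ => Real.exp (m * K0) * ‖v.eval t‖)
              (𝓝 s) (𝓝 (Real.exp (m * K0) * ‖v.eval s‖)) :=
            (continuous_const.mul v.continuous.norm).tendsto s
          rw [h0, norm_zero, mul_zero] at h1
          exact h1.mono_left nhdsWithin_le_nhds
        refine squeeze_zero_norm' ?_ hlim
        filter_upwards [self_mem_nhdsWithin] with t ht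
        exact hle m t (by simpa using ht)
      · refine ContinuousAt.continuousWithinAt ?_
        unfold aux
        refine ContinuousAt.mul ?_ v.continuous.continuousAt
        refine ContinuousAt.cexp ?_
        refine ContinuousAt.neg ?_
        refine ContinuousAt.mul continuousAt_const ?_
        exact W.continuous.continuousAt.div v.continuous.continuousAt h0
  -- bound of v on the circle
  obtain ⟨K, hK⟩ : ∃ K : ℝ, ∀ s ∈ closedBall (0 : ℂ) 1, ‖v.eval s‖ ≤ K :=
    (isCompact_closedBall (0 : ℂ) 1).exists_bound_of_continuousOn v.continuous.continuousOn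
  have hmax : ∀ m : ℕ, ‖aux v W m 0‖ ≤ K := by
    intro m
    refine Complex.norm_le_of_forall_mem_frontier_norm_le isBounded_ball (hd m) ?_
      (subset_closure (by simp))
    intro s hs
    rw [frontier_ball _ one_ne_zero, mem_sphere_zero_iff_norm] at hs
    exact (hcirc m s hs).trans (hK s (by simp [hs]))
  have hv0 : v.eval 0 ≠ 0 := hv 0 (by simp)
  have hp : 0 < ‖v.eval 0‖ ^ 2 := pow_pos (norm_pos_iff.mpr hv0) 2
  by_contra hneg
  push Not at hneg
  have hre : (W.eval 0 / v.eval 0).re < 0 := by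
    rw [re_div_eq _ _ hv0]
    exact div_neg_of_neg_of_pos hneg hp
  set a : ℝ := -(W.eval 0 / v.eval 0).re with ha
  have ha0 : 0 < a := by rw [ha]; linarith
  obtain ⟨m, hm⟩ := exists_nat_gt (K / (a * ‖v.eval 0‖))
  have hvn : 0 < ‖v.eval 0‖ := norm_pos_iff.mpr hv0
  have h1 := hmax m
  rw [norm_aux] at h1
  have h2 : -((m : ℝ) * (W.eval 0 / v.eval 0).re) = m * a := by rw [ha]; ring
  rw [h2] at h1
  have h3 : (m : ℝ) * a + 1 ≤ Real.exp (m * a) := Real.add_one_le_exp _
  have h4 : K < m * a * ‖v.eval 0‖ := by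
    rw [div_lt_iff₀ (mul_pos ha0 hvn)] at hm
    linarith
  have h5 : (m * a + 1) * ‖v.eval 0‖ ≤ Real.exp (m * a) * ‖v.eval 0‖ :=
    mul_le_mul_of_nonneg_right h3 hvn.le
  nlinarith

end Pool.Agent.B5.H98
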