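import Pool.Agent.Lib.MP_b5021c_nt.IfaceE6
import Pool.Agent.Lib.MP_b5021c_nt.H41.Rks

/-!
# MP_b5021c_nt, row E6_WN1 (helper98): the window, first closing
-/

namespace Pool.Agent.B5.H98

open scoped LaurentPolynomial
open Polynomial

/-- The unit `- sg / z`. -/
noncomputable def kapU (sg : ℤˣ) : (RO ℤ)ˣ :=
  -(Units.map (LaurentPolynomial.C : ℤ →+* RO ℤ).toMonoidHom sg *
    (LaurentPolynomial.isUnit_T (R := ℤ) (-1)).unit)

theorem kapU_coe (sg : ℤˣ) : ((kapU sg : (RO ℤ)ˣ) : RO ℤ) =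
    -(LaurentPolynomial.C (sg : ℤ) * LaurentPolynomial.T (-1)) := by
  simp [kapU]

theorem kapU_ne (sg : ℤˣ) : kapU sg ≠ 1 := by
  intro h
  have h1 : ((kapU sg : (RO ℤ)ˣ) : RO ℤ) = 1 := by rw [h, Units.val_one]
  rw [kapU_coe] at h1
  have h2 : -(LaurentPolynomial.C (sg : ℤ) * LaurentPolynomial.T (-1) : RO ℤ) * LaurentPolynomial.T 1
      = LaurentPolynomial.T 1 := by rw [h1, one_mul]
  have h3 : (LaurentPolynomial.C (sg : ℤ) * LaurentPolynomial.T (-1) : RO ℤ) * LaurentPolynomial.T 1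
      = LaurentPolynomial.C (sg : ℤ) := by
    rw [mul_assoc, ← LaurentPolynomial.T_add]
    simp
  rw [neg_mul, h3] at h2
  have h4 : toLaurent (-(C (sg : ℤ))) = toLaurent (X : ℤ[X]) := by
    rw [map_neg, toLaurent_C, toLaurent_X]
    exact h2
  have h5 := toLaurent_injective h4
  have h6 := congrArg (fun p : ℤ[X] => p.coeff 1) h5
  simp only [coeff_neg, coeff_C, coeff_X_one] at h6
  norm_num at h6

/-- Row E6_WN1. -/
theorem e6wn1 : OnaS → MugS → FclS → ZfaS → McoS → Wn1S := by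
  intro hOna hMug hFcl hZfa hMco P L _ _ _ _ _ phi D S0 S1 e0 e1 θ E n q f u sg N eA W Y
  have dd := W.fp.dd
  have hbig : (10 : ℝ) ^ 13 ≤ θ := W.hyp.big
  have hθ : (10 : ℝ) ^ 13 ≤ θ := hbig
  have hθ1 : (1 : ℝ) < θ := lt_of_lt_of_le (by norm_num) hθ
  have hN : (9 : ℝ) / 10 * 10 ^ 13 ≤ N := by
    refine le_trans ?_ W.Nlo
    nlinarith
  have hN4 : (4 : ℝ) ≤ N := le_trans (by norm_num) hN
  -- the load
  have heA : eA = kapU sg * e0 := by
    apply Units.ext
    rw [W.eAd, Units.val_mul, kapU_coe, neg_mul]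
  have hX : toLaurent (X * f) = (LaurentPolynomial.T 1 * toLaurent f : RO ℤ) := by
    rw [map_mul, toLaurent_X]
  have hsg : toLaurent (C (sg : ℤ) * f) = (LaurentPolynomial.C (sg : ℤ) * toLaurent f : RO ℤ) := by
    rw [map_mul, toLaurent_C]
  have hTT : (LaurentPolynomial.T (-1) * LaurentPolynomial.T 1 : RO ℤ) = 1 := by
    rw [← LaurentPolynomial.T_add]
    simp
  have hE0 : D.coeff 0 + ((kapU sg * e0 : (RO ℤ)ˣ) : RO ℤ) * D.coeff S0 =
      LaurentPolynomial.T n * toLaurent (q - C (sg : ℤ) * f) := by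
    rw [Units.val_mul, mul_assoc, W.DS, kapU_coe, W.D0, hX, map_sub, hsg]
    linear_combination (-(LaurentPolynomial.C (sg : ℤ) * LaurentPolynomial.T n * toLaurent f :
      RO ℤ)) * hTT
  have hE0u : D.coeff 0 + (eA : RO ℤ) * D.coeff S0 =
      LaurentPolynomial.T (n + 1) * toLaurent u := by
    rw [heA, hE0, W.qu, map_mul, toLaurent_X, LaurentPolynomial.T_add]
    ring
  have hu0 : u ≠ 0 := by
    intro h
    apply W.uz 0 (by simp)
    simp [h]
  have hE0ne : D.coeff 0 + (eA : RO ℤ) * D.coeff S0 ≠ 0 := by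
    rw [hE0u]
    refine mul_ne_zero (LaurentPolynomial.isUnit_T _).ne_zero ?_
    intro h
    exact hu0 ((map_eq_zero_iff _ toLaurent_injective).mp h)
  have huc : u.coeff 0 = -((sg : ℤ) * q.coeff 0 * N) := by
    rw [← W.c1, W.qu, coeff_X_mul]
  have hqabs : |q.coeff 0| = 1 := by
    rcases W.pol.q0 with h | h <;> rw [h] <;> norm_num
  have hsabs : |(sg : ℤ)| = 1 := Int.isUnit_iff_abs_eq.mp sg.isUnit
  have hcV : ClassV (N : ℝ) (D.coeff 0 + (eA : RO ℤ) * D.coeff S0) := by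
    refine ⟨by linarith, n + 1, u, hE0u, ?_, ?_⟩
    · change ‖(Int.castRingHom ℂ (u.coeff 0) : ℂ)‖ = N
      rw [eq_intCast, Complex.norm_intCast, huc]
      have : |(-((sg : ℤ) * q.coeff 0 * N) : ℤ)| = N := by
        rw [abs_neg, abs_mul, abs_mul, hsabs, hqabs]
        simp
      rw [← Int.cast_abs, this]
      simp
    · exact W.uz
  rcases hOna P L phi D S0 Y.i0 Y.h0 eA e0 θ N W.fp W.rk4 W.mt.r0 hbig W.cls hcV W.Nlo
      (by have := W.Nhi; linarith) (W.full Y.i0 Y.h0) W.v0 W.cross (W.drop Y.i0 Y.h0) W.hyp.v3 with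
    h1 | ⟨c, G, hc, hcl, hG, hGV⟩
  · left
    have h2 : 1 / θ ≤ 1 / 2 := by
      apply one_div_le_one_div_of_le (by norm_num)
      linarith
    linarith
  · have hcl' : cl (co phi Y.i0) S0 Y.h0 (kapU sg * e0) D = cst c * G := by
      rw [← heA]
      exact hcl
    have hne' : D.coeff 0 + ((kapU sg * e0 : (RO ℤ)ˣ) : RO ℤ) * D.coeff S0 ≠ 0 := by
      rw [← heA]
      exact hE0ne
    obtain ⟨hray, hc0, hcT, -, -, him, -⟩ := hMug ℤ P L phi D S0 S1 e0 e1 (kapU sg) Y.i0 Y.h0 Y.T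
      c G W.fp W.mt.r0 W.mt.r1 W.mt.m0 W.mt.m1 Y.eT (kapU_ne sg) hne' hcl'
    have hc0' : c * G.coeff 0 = LaurentPolynomial.T n * toLaurent (q - C (sg : ℤ) * f) :=
      hc0.trans hE0
    have hcT' : (e1 : RO ℤ) * (c * G.coeff Y.T) =
        LaurentPolynomial.T n * toLaurent ((X + C (sg : ℤ)) * f) := by
      rw [hcT, W.DS, kapU_coe, hX, map_mul, map_add, toLaurent_X, toLaurent_C]
      linear_combination (LaurentPolynomial.C (sg : ℤ) * LaurentPolynomial.T n * toLaurent f :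
        RO ℤ) * hTT
    have hk0 : co phi Y.i0 ≠ 0 := by
      intro h
      have h2 := Y.h0
      rw [h] at h2
      simp at h2
    have hfk : Module.finrank ℤ (Ker (co phi Y.i0)) + 1 = Module.finrank ℤ L := Pool.Agent.B5.H41.rk_ker _ hk0
    have hi1 : co (phO phi S0 Y.i0) Y.i1 = Y.k1 := by
      have hd := (hMco ℤ P L phi D S0 S1 e0 e1 dd.inj dd.bin W.mt).1 Y.i1
      have h1 : phi S1 Y.i1 = 1 :=
        (congrArg (fun a : L => phi a Y.i1) Y.eT).symm.trans ((Y.hk Y.T).symm.trans Y.h1)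
      have h2 : phi S0 Y.i1 = 0 := by
        rcases hd with h | h
        · exact h
        · rw [h1] at h
          exact absurd h one_ne_zero
      apply AddMonoidHom.ext
      intro a
      rw [Y.hk]
      change (if phi S0 Y.i1 = 0 then phi (a : L) Y.i1 else 0) = _
      rw [if_pos h2]
    have hK1 : 1 ≤ Module.finrank ℤ (Ker (co phi Y.i0)) := by
      have := W.rk4
      omega
    rcases hFcl ℤ P (Ker (co phi Y.i0)) (phO phi S0 Y.i0) G N hG hGV hK1 with
      hz | ⟨N', b, D', hN', hD', hV', hr⟩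
    · left
      have h1 : (N : ℝ) * (θ + 1) = θ ^ 2 := by
        refine hZfa (Ker (co phi Y.i0)) G Y.T c n q f (sg : ℤ) θ N
          ((LaurentPolynomial.isUnit_T (R := ℤ) (-n)).unit * e1) W.pol hz hc hGV W.c1 hc0' ?_
        rw [Units.val_mul, mul_assoc, hcT', IsUnit.unit_spec, ← mul_assoc, ← LaurentPolynomial.T_add]
        simp
      have h2 := W.hyp.v2 N hN4 P (Ker (co phi Y.i0)) (phO phi S0 Y.i0) G hG hGV
      have h3 : (Module.finrank ℤ L : ℝ) = Module.finrank ℤ (Ker (co phi Y.i0)) + 1 := by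
        rw [← hfk]
        push_cast
        ring
      have h4 : (N : ℝ) = θ - 1 + 1 / (θ + 1) := by
        field_simp
        linarith
      have h5 : 1 / (θ + 1) ≤ 1 / 8 := one_div_le_one_div_of_le (by norm_num) (by linarith)
      have h6 : 1 / θ ≤ 1 / 8 := one_div_le_one_div_of_le (by norm_num) (by linarith)
      rw [h3]
      linarith
    · right
      refine ⟨?_, c, G, hc, hcl, hG, hGV, hray, hc0', hcT', him, hi1⟩
      have hr' : Module.finrank ℤ (Ker (co phi Y.i0) × ℤ) = Module.finrank ℤ L := by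
        rw [hr, hfk]
      have h5 : (Module.finrank ℤ L : ℝ) ≤ 2 * N := by
        rw [← hr']
        by_cases h4 : (4 : ℝ) ≤ N'
        · have := W.hyp.v2 N' h4 (Option P) (Ker (co phi Y.i0) × ℤ) _ D' hD' hV'
          linarith
        · push Not at h4
          have := W.hyp.v3 N' (Option P) (Ker (co phi Y.i0) × ℤ) _ D' hD' hV'
          have h6 : max 1 N' ≤ 4 := max_le (by norm_num) h4.le
          linarith
      exact_mod_cast h5

end Pool.Agent.B5.H98
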